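import Pool.Agent.helper54.TS.Spec

set_option autoImplicit false

open Polynomial Finset

noncomputable section

namespace Pool.Agent.TS

open Pool.Agent.PSA (IsSalem Indep Fac)

theorem PLA (hPLN : PLN_stmt) : PLA_stmt := by
  intro K _ ι β σ k φ w hSF S v N H C n1 k0 Sg hC dl hdl hfav M hM s hs
  obtain ⟨h1, h2, h3, h4, h5, h6⟩ := hs
  have hβ1 : 1 < ι β := hSF.gt
  have hβ0 : 0 < ι β := by linarith
  have hH0 : 0 ≤ (ι β) ^ H := by positivity
  unfold plan
  split_ifs with hcond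
  · obtain ⟨hc0, hcv⟩ := hcond
    obtain ⟨d, hd⟩ : ∃ d, d = dl s.1 := ⟨_, rfl⟩
    rw [← hd]
    have hdH : d + 1 ≤ H := by
      rw [hd]
      exact hdl s.1
    have hz1 : (ι β)⁻¹ ≤ 1 := inv_le_one_of_one_le₀ hβ1.le
    have hz0 : 0 < (ι β)⁻¹ := by positivity
    have hpow : ι (β⁻¹ ^ (d + 1)) = (ι β)⁻¹ ^ (d + 1) := by
      rw [map_pow, map_inv₀]
    have hsig : σ (β⁻¹ ^ (d + 1)) = (ι β) ^ (d + 1) := by
      rw [map_pow, map_inv₀, hSF.sig, inv_inv]
    have hpw : (ι β)⁻¹ ^ (d + 1) ≤ (ι β)⁻¹ := by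
      rw [pow_succ]
      have h7 : (ι β)⁻¹ ^ d ≤ 1 := pow_le_one₀ hz0.le hz1
      nlinarith
    refine ⟨⟨?_, ?_, hdH, ?_, ?_, ?_⟩, Or.inl (by simp only; omega)⟩
    · simp only [map_sub]
      rw [hpow]
      have hv1 := hC.v1
      nlinarith
    · simp only [map_sub]
      rw [hpow]
      have : 0 < (ι β)⁻¹ ^ (d + 1) := by positivity
      linarith
    · simp only
      rw [mul_sub]
      have hN : IsIntegral ℤ ((N : ℕ) : K) := isIntegral_natCast N
      exact h4.sub (hN.mul (hSF.inv.pow _))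
    · simp only [map_sub]
      rw [hsig]
      have h7 : (ι β) ^ (d + 1) ≤ (ι β) ^ H := pow_le_pow_right₀ hβ1.le hdH
      have h8 : |(ι β) ^ (d + 1)| = (ι β) ^ (d + 1) := abs_of_pos (by positivity)
      have h9 := abs_sub (σ s.1) ((ι β) ^ (d + 1))
      linarith
    · have hn1 : nn φ s.1 ≤ M := by
        rw [hc0] at h6
        push_cast at h6
        linarith
      have hP := hPLN k w k0 M (fun j => φ j s.1) d hC.kp hM hn1 (by
        have := hfav s.1
        rw [← hd] at this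
        exact this)
      have hq : nn φ (s.1 - β⁻¹ ^ (d + 1)) ≤ M - k0 / 2 := by
        refine le_trans (le_of_eq ?_) hP
        unfold nn
        apply congrArg
        apply Finset.sum_congr rfl
        intro j _
        rw [map_sub, map_pow, map_inv₀, hSF.val]
      have h7 : ((d + 1 : ℕ) : ℝ) * n1 ≤ H * n1 := by
        apply mul_le_mul_of_nonneg_right _ hC.np
        exact_mod_cast hdH
      have h8 := hC.hn
      show nn φ (s.1 - β⁻¹ ^ (d + 1)) + ((d + 1 : ℕ) : ℝ) * n1 ≤ M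
      linarith
  · refine ⟨⟨h1, h2, h3, h4, by linarith, h6⟩, ?_⟩
    by_contra hcon
    rw [not_or, not_lt] at hcon
    exact hcond ⟨by omega, hcon.2⟩

end Pool.Agent.TS
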