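import Pool.Agent.helper54.TS.Spec

set_option autoImplicit false

open Polynomial Finset

noncomputable section

namespace Pool.Agent.TS

open Pool.Agent.PSA (IsSalem Indep Fac)

lemma SQD_pen (z : ℝ) (c : ℕ) : z * imp c + z * pen z (c - 1) = pen z c := by
  unfold imp pen
  rcases c with _ | c
  · simp
  · rcases c with _ | c
    · simp
    · rw [if_neg (by omega), if_neg (by omega), if_neg (by omega)]
      have : c + 1 + 1 - 1 = c + 1 := by omega
      rw [this, pow_succ z (c + 1)]
      ring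

lemma SQD_pen0 (z : ℝ) (hz0 : 0 < z) (hz1 : z < 1) (c : ℕ) : 0 ≤ pen z c ∧ pen z c ≤ 1 := by
  unfold pen
  split_ifs
  · norm_num
  · exact ⟨by positivity, pow_le_one₀ hz0.le hz1.le⟩

lemma SQD_imp (c : ℕ) : 0 ≤ imp c ∧ imp c ≤ 1 := by
  unfold imp
  split_ifs <;> norm_num

lemma SQD_w1 (z v : ℝ) (h : ℕ) (F : ℝ → ℝ) (u u' e : ℕ → ℝ) (c c' : ℕ → ℕ)
    (hR : Run z v h F u u' e c c') (n : ℕ) : u n + pen z (c n) = u' n + pen z (c' n) := by
  rcases hR.pl n with ⟨h1, h2, h3, h4⟩ | ⟨h1, h2, h3⟩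
  · rw [h4, h1]
    unfold pen
    rw [if_pos rfl, if_neg (by omega)]
    ring
  · rw [h2, h3]

lemma SQD_w2 (z v : ℝ) (h : ℕ) (F : ℝ → ℝ) (u u' e : ℕ → ℝ) (c c' : ℕ → ℕ) (hz0 : 0 < z)
    (hR : Run z v h F u u' e c c') (n : ℕ) :
    u n + pen z (c n) = z * ((imp (c' n) + v * e n) + (u (n + 1) + pen z (c (n + 1)))) := by
  rw [SQD_w1 z v h F u u' e c c' hR n, hR.un n, hR.cn n, ← SQD_pen z (c' n)]
  have h1 : z * (z⁻¹ * u' n) = u' n := by
    rw [← mul_assoc, mul_inv_cancel₀ hz0.ne', one_mul]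
  linear_combination -h1

lemma SQD_zero (z : ℝ) (a : ℕ → ℝ) (ha : ∀ n, a n = 0) (n : ℕ) : tl z a n = 0 := by
  unfold tl
  have : (fun l : ℕ => z ^ (l + 1) * a (n + l)) = fun _ => 0 := by
    funext l
    rw [ha, mul_zero]
  rw [this, tsum_zero]

theorem SQD (hTLR : TLR_stmt) (hSQX : SQX_stmt) : SQD_stmt := by
  intro z v δ h F u u' e c c' hz0 hz1 hh hzh hv1 hv2 hRB hR
  have hX := hSQX z v δ h F u u' e c c' hz0 hz1 hh hzh hRB hR
  have hzi : 0 < z⁻¹ := by positivity
  have hbi : ∀ n, |(fun m => imp (c' m)) n| ≤ 1 := by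
    intro n
    have := SQD_imp (c' n)
    simp only
    rw [abs_of_nonneg this.1]
    exact this.2
  have hbe : ∀ n, |e n| ≤ z⁻¹ := by
    intro n
    rw [abs_of_nonneg (hR.en n).1]
    exact (hR.en n).2
  have hba : ∀ n, |(fun m => imp (c' m) + v * e m) n| ≤ 1 + v * z⁻¹ := by
    intro n
    have h1 := SQD_imp (c' n)
    have h2 := hR.en n
    simp only
    rw [abs_of_nonneg (by nlinarith)]
    nlinarith
  obtain ⟨i1, i2, -, -, -, -⟩ := hTLR z 1 (fun m => imp (c' m)) hz0 hz1 hbi
  obtain ⟨e1, e2, e3, e4, -, -⟩ := hTLR z z⁻¹ e hz0 hz1 hbe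
  obtain ⟨-, -, -, -, -, a6⟩ := hTLR z (1 + v * z⁻¹) (fun m => imp (c' m) + v * e m) hz0 hz1 hba
  obtain ⟨X, hXd⟩ : ∃ X, X = tl z (fun m => imp (c' m)) := ⟨_, rfl⟩
  obtain ⟨D, hDd⟩ : ∃ D, D = tl z e := ⟨_, rfl⟩
  rw [← hXd] at i1 i2 hX ⊢
  rw [← hDd] at e1 e2 e3 e4 ⊢
  have hw : ∀ n, u n + pen z (c n) = X n + v * D n := by
    intro n
    have g1 := a6 (fun m => u m + pen z (c m)) 3 (by
      intro m
      have h1 := hR.ub m
      have h2 := SQD_pen0 z hz0 hz1 (c m)
      rw [abs_of_nonneg (by linarith)]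
      linarith) (fun m => SQD_w2 z v h F u u' e c c' hz0 hR m) n
    have g2 := a6 (fun m => X m + v * D m) (z * 1 / (1 - z) + v * (z * z⁻¹ / (1 - z))) (by
      intro m
      have h1 := i2 m
      have h2 := e2 m
      have h3 := abs_add_le (X m) (v * D m)
      have h4 : |v * D m| = v * |D m| := by
        rw [abs_mul, abs_of_pos (by linarith)]
      have h5 : v * |D m| ≤ v * (z * z⁻¹ / (1 - z)) := mul_le_mul_of_nonneg_left h2 (by linarith)
      linarith) (by
      intro m
      linear_combination i1 m + v * e1 m) n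
    rw [g1, g2]
  have hDn : ∀ n, 0 ≤ D n := e3 (fun n => (hR.en n).1)
  have hvD : ∀ n, v * D n ≤ u' n := by
    intro n
    have h1 := hw n
    rw [SQD_w1 z v h F u u' e c c' hR n] at h1
    have h2 := (hX n).2.1
    linarith
  have hDs : ∀ n, D (n + 1) = z⁻¹ * D n - e n := by
    intro n
    rw [e1 n, ← mul_assoc, inv_mul_cancel₀ hz0.ne', one_mul]
    ring
  refine ⟨?_, ?_, ?_⟩
  · have h1 := hw 0
    rw [hR.c0] at h1
    have h2 : pen z 0 = 0 := by
      unfold pen
      rw [if_pos rfl]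
    rw [h2] at h1
    linarith
  · rcases (hDn 0).lt_or_eq with hlt | heq
    · exact hlt
    · exfalso
      have he0 := e4 (fun n => (hR.en n).1) heq.symm
      have hD0 : ∀ n, D n = 0 := by
        intro n
        rw [hDd]
        exact SQD_zero z e he0 n
      have hnp : ∀ n, c' n = c n := by
        intro n
        rcases hR.pl n with ⟨h1, h2, h3, h4⟩ | ⟨h1, h2, h3⟩
        · exfalso
          have h5 := hw n
          rw [hD0 n, h1] at h5
          have h6 : pen z 0 = 0 := by
            unfold pen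
            rw [if_pos rfl]
          rw [h6] at h5
          have h7 := (hX n).2.2.1 h1
          have h8 := hRB.dl3
          rw [inv_inv] at h8
          nlinarith
        · exact h2
      have hc0 : ∀ n, c n = 0 := by
        intro n
        induction n with
        | zero => exact hR.c0
        | succ n ih => rw [hR.cn n, hnp n, ih]
      have hX0 : X 0 = 0 := by
        rw [hXd]
        apply SQD_zero
        intro n
        rw [hnp n, hc0 n]
        unfold imp
        rw [if_neg (by omega)]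
      have h1 := hw 0
      rw [hX0, hD0 0, hR.c0] at h1
      have h6 : pen z 0 = 0 := by
        unfold pen
        rw [if_pos rfl]
      rw [h6] at h1
      have h2 := hR.u0
      linarith
  · intro n
    refine ⟨hDn n, hvD n, ?_⟩
    have hv0 : 0 < v := by linarith
    have hup := hR.up n
    have hle : D n ≤ u' n / v := by
      rw [le_div_iff₀ hv0]
      have := hvD n
      linarith
    have h1 := hRB.cell (D n) (u' n / v) (hDn n) hle (by
      rw [div_le_one hv0]
      exact hup.le) (by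
      rw [hR.fe n]
      have h2 := hDs n
      have h3 := hDn (n + 1)
      linarith)
    rw [h1, hR.fe n, hDs n]
    ring

end Pool.Agent.TS
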